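import Mathlib
import Pool.Agent.Q196.FB.Main

/-!
# A projective Banach lattice without topological order unit which is not free

All definitions are in `Pool/Agent/Q196/FB/Stmts.lean` (`BLat`, `BL`: Banach lattices; `IsLat`: suprema are preserved;
`IsQuot`, `Projective`, `IsTOU`, `IsFree`) and `Pool/Agent/Q196/FB/Asm.lean` (`IsFreePos`).
-/

namespace Pool.Agent.Results.MP_be51b2_an.PositiveGenerators

open Pool.Agent.Q196.FB

/-- For every uncountable set `A` there is a Banach lattice `P`, the free Banach lattice on the positive generators `p a`,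
`a ∈ A`, which is projective, has no topological order unit, and is not isometrically lattice isomorphic to a free Banach
lattice. -/
theorem result (A : Type) [Uncountable A] :
    ∃ (P : BL) (p : A → P), IsFreePos A P p ∧ Projective P ∧ (∀ e : P, ¬ IsTOU e) ∧
      ∀ (B : Type) (F : BL) (δ : B → F), Nonempty B → IsFree B F δ →
        ¬ ∃ U : P ≃ₗᵢ[ℝ] F, ∀ x y, U (x ⊔ y) = U x ⊔ U y :=
  main A

end Pool.Agent.Results.MP_be51b2_an.PositiveGenerators
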